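import Pool.Agent.Q82.Schr

/-! # MP_490a28_an: the means of a convex potential along the Dirichlet eigenfunctions of
`-u'' + V u` on `(0,1)` need not be nondecreasing -/

namespace Pool.Agent.Results.MP_490a28_an.MeansDecrease

open MeasureTheory Set

noncomputable section

/-- `u` is a Dirichlet eigenfunction of `-u'' + V u` on `(0,1)` with eigenvalue `l`: it is
continuous on `[0,1]`, vanishes at `0` and `1`, and `-u'' + V u = l u` in `(0,1)`. -/
def IsEigen (V : ℝ → ℝ) (l : ℝ) (u : ℝ → ℝ) : Prop :=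
  ContinuousOn u (Icc 0 1) ∧ u 0 = 0 ∧ u 1 = 0 ∧
    ∃ u' : ℝ → ℝ, ∀ x ∈ Ioo (0 : ℝ) 1,
      HasDerivAt u (u' x) x ∧ HasDerivAt u' (V x * u x - l * u x) x

/-- `u 0, u 1, …` is an admissible eigenbasis with eigenvalues `l 0 ≤ l 1 ≤ …`: the `u j` are
eigenfunctions, orthonormal in `L²(0,1)`, and every `f` in `L²(0,1)` orthogonal to all of them
vanishes almost everywhere. -/
def IsBasis (V : ℝ → ℝ) (u : ℕ → ℝ → ℝ) (l : ℕ → ℝ) : Prop :=
  Monotone l ∧ (∀ j, IsEigen V (l j) (u j)) ∧
    (∀ i j, ∫ x in (0 : ℝ)..1, u i x * u j x = if i = j then 1 else 0) ∧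
    ∀ f : ℝ → ℝ, MemLp f 2 (volume.restrict (Ioc (0 : ℝ) 1)) →
      (∀ j, ∫ x in (0 : ℝ)..1, f x * u j x = 0) →
      ∀ᵐ x ∂volume.restrict (Ioc (0 : ℝ) 1), f x = 0

/-- The mean of the potential in the state `u`. -/
def mean (V u : ℝ → ℝ) : ℝ := ∫ x in (0 : ℝ)..1, V x * u x ^ 2

/-- The potential. -/
def V (x : ℝ) : ℝ := 1 / 100 * max (x - 1 / 2) 0

/-- The potential `V(x) = max(x - 1/2, 0) / 100` is convex, and for every admissible eigenbasis
the mean of `V` in the third eigenstate is smaller than the mean in the second one (the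
eigenfunctions are numbered from `0`). -/
theorem result : ConvexOn ℝ (Ioo 0 1) V ∧
    ∀ u l, IsBasis V u l → mean V (u 2) < mean V (u 1) := by
  constructor
  · have h : ConvexOn ℝ univ V := by
      apply ConvexOn.smul (by norm_num : (0 : ℝ) ≤ 1 / 100)
      apply ConvexOn.sup
      · exact (convexOn_id convex_univ).sub (concaveOn_const _ convex_univ)
      · exact convexOn_const _ convex_univ
    exact h.subset (subset_univ _) (convex_Ioo 0 1)
  · intro u l h
    exact Q82.Schr.main h

end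

end Pool.Agent.Results.MP_490a28_an.MeansDecrease
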